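import Pool.Agent.Helper6.AE.CF
import Pool.Agent.Helper6.AE.Main

/-!
The solution set of `x + y + z = 1` in real numbers whose partial quotients are at most `3` and
eventually at most `2` is uncountable.
-/

set_option autoImplicit false

namespace Pool.Agent.Results.MP_ae7841_nt.Uncountable

open Pool.Agent.Helper6.AE

theorem result : ¬ SS.Countable := main

end Pool.Agent.Results.MP_ae7841_nt.Uncountable
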